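import Pool.Agent.Lib.MP_393ee6_an.Phases
import Pool.Agent.Lib.MP_393ee6_an.Eff
import Pool.Agent.Lib.MP_393ee6_an.Trial
import Pool.Agent.Lib.MP_393ee6_an.Layer

/-!
MP_393ee6_an, Q1: for two-phase composites in the plane with `n = 11` potentials the G-closure is
in general not contained in the closure of multiple-rank laminates.
-/

open MeasureTheory Matrix

namespace Pool.Agent.Results.MP_393ee6_an.TwoPhase

open Pool.Agent.Lib.MP_393ee6_an

/-- Crude bound of a quadratic form. -/
theorem quad_le {n : ℕ} (L : Tens n) (F : Sn n) (C : ℝ) (hF : ∀ i, |F i| ≤ C) :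
    F ⬝ᵥ (L *ᵥ F) ≤ ∑ i, ∑ j, C * (|L i j| * C) := by
  simp only [dotProduct, mulVec, Finset.mul_sum]
  refine Finset.sum_le_sum (fun i _ => Finset.sum_le_sum (fun j _ => ?_))
  have hC : 0 ≤ C := (abs_nonneg _).trans (hF i)
  calc F i * (L i j * F j) ≤ |F i * (L i j * F j)| := le_abs_self _
    _ = |F i| * (|L i j| * |F j|) := by rw [abs_mul, abs_mul]
    _ ≤ C * (|L i j| * C) := by
      have := hF i
      have := hF j
      gcongr

theorem volume_cell : volume cell = 1 := by
  unfold cell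
  rw [Measure.volume_eq_prod, Measure.prod_prod]
  simp

theorem measurableSet_cell : MeasurableSet cell := by
  unfold cell
  exact measurableSet_Ico.prod measurableSet_Ico

/-- The continuous functional `A ↦ e₀ · A e₀`. -/
theorem continuous_form {n : ℕ} (e₀ : Sn n) : Continuous (fun A : Tens n => e₀ ⬝ᵥ (A *ᵥ e₀)) := by
  simp only [dotProduct, mulVec]
  refine continuous_finsetSum _ (fun i _ => continuous_const.mul ?_)
  refine continuous_finsetSum _ (fun j _ => Continuous.mul ?_ continuous_const)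
  exact (continuous_apply j).comp (continuous_apply i)

/-- **Main result.** For `n = 11` there are a volume fraction `f` and positive definite tensors
`L₁`, `L₂` of the two phases such that `G_f(L₁,L₂)` is not contained in the closure of the
multiple-rank laminates (which is not empty). -/
theorem result : ∃ (f : ℝ) (L₁ L₂ : Tens 11), 0 ≤ f ∧ f ≤ 1 ∧ L₁.PosDef ∧ L₂.PosDef ∧
    (∃ A, IsLaminate L₁ L₂ f A) ∧ ¬ (Gclosure f L₁ L₂ ⊆ Lclosure f L₁ L₂) := by
  obtain ⟨C, hC⟩ := exists_trial
  obtain ⟨K, hK⟩ : ∃ K : ℝ, ∀ F : Sn 11, (∀ i, |F i| ≤ C) → F ⬝ᵥ (Lm 1 *ᵥ F) ≤ K :=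
    ⟨_, fun F hF => quad_le _ F C hF⟩
  obtain ⟨K', hK'⟩ : ∃ K : ℝ, ∀ F : Sn 11, (∀ i, |F i| ≤ C) → F ⬝ᵥ (Lm (-1) *ᵥ F) ≤ K :=
    ⟨_, fun F hF => quad_le _ F C hF⟩
  obtain ⟨B, hB⟩ : ∃ B : ℝ, B = |K| + |K'| := ⟨_, rfl⟩
  have hB0 : 0 ≤ B := by rw [hB]; positivity
  have hB1 : 0 < B + 1 := by linarith
  obtain ⟨m, D, V, Bad, hm, hD, hDper, hV, hBad, hBadc, hBadv, hbd, hgood⟩ :=
    hC (min (1 / 1000) (1 / (1000 * (B + 1)))) (by positivity)
  have hm' : |m - 1 / 3| < 1 / 1000 := lt_of_lt_of_le hm (min_le_left _ _)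
  have hBadv' : (volume Bad).toReal < 1 / (1000 * (B + 1)) := lt_of_lt_of_le hBadv (min_le_right _ _)
  have p1 := Lm_posDef 1
  have p2 := Lm_posDef (-1)
  obtain ⟨A, hA⟩ := exists_effective p1 p2 hD
  set f : ℝ := (volume (D ∩ cell)).toReal with hf
  have hf0 : 0 ≤ f := ENNReal.toReal_nonneg
  have hcv : volume cell ≠ ⊤ := by rw [volume_cell]; exact ENNReal.one_ne_top
  have hf1 : f ≤ 1 := by
    have h1 : volume (D ∩ cell) ≤ volume cell := measure_mono Set.inter_subset_right
    have h2 := ENNReal.toReal_mono hcv h1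
    rw [volume_cell, ENNReal.toReal_one] at h2
    exact h2
  refine ⟨f, Lm 1, Lm (-1), hf0, hf1, p1, p2, exists_laminate p1 p2 hf0 hf1, fun hall => ?_⟩
  have hmem : A ∈ Lclosure f (Lm 1) (Lm (-1)) := hall (subset_closure ⟨D, hD, hDper, rfl, hA⟩)
  -- lower bound
  set e₀ : Sn 11 := fld (meanY m) with he₀
  have hlow : 10 ^ 46 + 32 / 1000 ≤ e₀ ⬝ᵥ (A *ᵥ e₀) := by
    have hcl : IsClosed {A : Tens 11 | 10 ^ 46 + 32 / 1000 ≤ e₀ ⬝ᵥ (A *ᵥ e₀)} :=
      isClosed_le continuous_const (continuous_form e₀)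
    have hsub : {A : Tens 11 | IsLaminate (Lm 1) (Lm (-1)) f A} ⊆
        {A : Tens 11 | 10 ^ 46 + 32 / 1000 ≤ e₀ ⬝ᵥ (A *ᵥ e₀)} := by
      intro A' hA'
      obtain ⟨_, _, h⟩ := lam_lower (G := Gf)
        (fun F t ht => ⟨pf F t, pt (vc F) (sc F) t, fun y e hy ht' => Gf_step F t ht y e hy ht'⟩)
        (fun F => by rw [dot_Lm]; exact Gf_le_Ph 1 (Or.inl rfl) F)
        (fun F => by rw [dot_Lm]; exact Gf_le_Ph (-1) (Or.inr rfl) F) hA'
      refine le_trans (Gf_mean m (2 * f - 1) hm' ?_) (h e₀)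
      rw [abs_le]; constructor <;> linarith
    exact closure_minimal hsub hcl hmem
  -- upper bound
  have hup := effective_le p1 p2 hD hA e₀ V hV
  set g : ℝ × ℝ → ℝ := fun x =>
    (e₀ + gradF V x) ⬝ᵥ (locT (Lm 1) (Lm (-1)) D x *ᵥ (e₀ + gradF V x)) with hg
  have hgB : ∀ x ∈ cell, g x ≤ B := by
    intro x hx
    simp only [hg]
    unfold locT
    split_ifs with h
    · have := hK (e₀ + gradF V x) (hbd x hx)
      have h2 := le_abs_self K
      have h3 := abs_nonneg K'
      linarith
    · have := hK' (e₀ + gradF V x) (hbd x hx)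
      have h2 := le_abs_self K'
      have h3 := abs_nonneg K
      linarith
  have hgG : ∀ x ∈ cell \ Bad, g x ≤ 10 ^ 46 + 21 / 1000 := by
    intro x hx
    obtain ⟨k, h1, h2⟩ := hgood x hx
    simp only [hg]
    unfold locT
    by_cases h : x ∈ D
    · rw [if_pos h, h1 h, dot_Lm]
      exact Ph_good k 1 (Or.inl rfl)
    · rw [if_neg h, h2 h, dot_Lm]
      exact Ph_good k (-1) (Or.inr rfl)
  have hint : ∫ x in cell, g x ≤ ∫ x in cell, ((10 ^ 46 + 21 / 1000) + Bad.indicator (fun _ => B) x) := by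
    by_cases hgi : IntegrableOn g cell
    · refine setIntegral_mono_on hgi ?_ measurableSet_cell ?_
      · refine Integrable.add (integrableOn_const hcv) ?_
        refine Integrable.integrableOn ?_
        rw [integrable_indicator_iff hBad]
        exact integrableOn_const (ne_top_of_le_ne_top hcv (measure_mono hBadc))
      · intro x hx
        by_cases hxb : x ∈ Bad
        · rw [Set.indicator_of_mem hxb]
          have := hgB x hx
          linarith
        · rw [Set.indicator_of_notMem hxb, add_zero]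
          exact hgG x ⟨hx, hxb⟩
    · rw [integral_undef hgi]
      refine setIntegral_nonneg measurableSet_cell (fun x _ => ?_)
      have : 0 ≤ Bad.indicator (fun _ => B) x := Set.indicator_nonneg (fun _ _ => hB0) x
      linarith
  have hval : ∫ x in cell, ((10 ^ 46 + 21 / 1000) + Bad.indicator (fun _ => B) x) =
      (10 ^ 46 + 21 / 1000) + (volume Bad).toReal * B := by
    rw [integral_add]
    · rw [setIntegral_const, setIntegral_indicator hBad, setIntegral_const]
      have h1 : cell ∩ Bad = Bad := Set.inter_eq_right.mpr hBadc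
      rw [h1]
      simp only [Measure.real, volume_cell, ENNReal.toReal_one, smul_eq_mul, one_mul]
    · exact integrableOn_const hcv
    · refine Integrable.integrableOn ?_
      rw [integrable_indicator_iff hBad]
      exact integrableOn_const (ne_top_of_le_ne_top hcv (measure_mono hBadc))
  have hsmall : (volume Bad).toReal * B ≤ 1 / 1000 := by
    have h0 : 0 ≤ (volume Bad).toReal := ENNReal.toReal_nonneg
    calc (volume Bad).toReal * B ≤ (1 / (1000 * (B + 1))) * (B + 1) := by
          gcongr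
          linarith
      _ = 1 / 1000 := by field_simp
  linarith

end Pool.Agent.Results.MP_393ee6_an.TwoPhase
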